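import Pool.Agent.Run7.h432.LV.Stm2

/-!
# Project LV (helper432), piece PFL: the localised ideal is two-sided and perfect
-/

set_option autoImplicit false

universe u

namespace Run7.h305.LV

open Run7.h432.LV

theorem t_PFL : S_PFL.{u} := by
  intro U₀ U _ _ φ N hN hφ I _ hI
  have hc : ∀ (k : ℕ) (x : U), Commute ((N : U) ^ k) x := fun k x =>
    (Int.cast_commute N x).pow_left k
  have hφN : ∀ k : ℕ, φ ((N : U₀) ^ k) = (N : U) ^ k := by
    intro k
    rw [map_pow, map_intCast]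
  let J : Ideal U :=
    { carrier := {c | ∃ k : ℕ, ∃ c₀ ∈ I, (N : U) ^ k * c = φ c₀}
      add_mem' := by
        rintro a b ⟨k, a₀, ha, hka⟩ ⟨l, b₀, hb, hlb⟩
        refine ⟨k + l, (N : U₀) ^ l * a₀ + (N : U₀) ^ k * b₀,
          I.add_mem (I.mul_mem_left _ ha) (I.mul_mem_left _ hb), ?_⟩
        rw [map_add, map_mul, map_mul, hφN, hφN, ← hka, ← hlb, mul_add, ← mul_assoc, ← mul_assoc,
          ← pow_add, ← pow_add, add_comm l k]
      zero_mem' := ⟨0, 0, I.zero_mem, by simp⟩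
      smul_mem' := by
        rintro r c ⟨k, c₀, hc₀, hkc⟩
        obtain ⟨l, r₀, hlr⟩ := hφ r
        refine ⟨l + k, r₀ * c₀, I.mul_mem_left _ hc₀, ?_⟩
        rw [map_mul, ← hlr, ← hkc, smul_eq_mul, pow_add, mul_assoc, ← mul_assoc ((N : U) ^ k) r c,
          (hc k r).eq, mul_assoc, ← mul_assoc] }
  have hJ : ∀ c, c ∈ J ↔ ∃ k : ℕ, ∃ c₀ ∈ I, (N : U) ^ k * c = φ c₀ := fun c => Iff.rfl
  refine ⟨J, ⟨?_⟩, ?_, hJ⟩
  · rintro c r ⟨k, c₀, hc₀, hkc⟩
    obtain ⟨l, r₀, hlr⟩ := hφ r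
    refine ⟨k + l, c₀ * r₀, Ideal.mul_mem_right _ I hc₀, ?_⟩
    rw [map_mul, ← hlr, ← hkc, pow_add, mul_assoc, ← mul_assoc ((N : U) ^ l) c r, (hc l c).eq,
      mul_assoc, ← mul_assoc]
  · rintro c ⟨k, c₀, hc₀, hkc⟩
    obtain ⟨n, hn⟩ := hN
    have hv : ∀ x : U, Commute (((n ^ k)⁻¹ : Uˣ) : U) x := by
      intro x
      apply Commute.units_inv_left
      rw [Units.val_pow_eq_pow_val, hn]
      exact hc k x
    have hvN : (((n ^ k)⁻¹ : Uˣ) : U) * (N : U) ^ k = 1 := by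
      rw [← hn, ← Units.val_pow_eq_pow_val, Units.inv_mul]
    have hNv : (N : U) ^ k * (((n ^ k)⁻¹ : Uˣ) : U) = 1 := by
      rw [← hn, ← Units.val_pow_eq_pow_val, Units.mul_inv]
    set v : U := (((n ^ k)⁻¹ : Uˣ) : U) with hvdef
    have hcv : c = v * φ c₀ := by
      rw [← hkc, ← mul_assoc, hvN, one_mul]
    rw [hcv]
    have hmem := hI c₀ hc₀
    refine AddSubgroup.closure_induction (p := fun y _ => v * φ y ∈
      AddSubgroup.closure {c : U | ∃ a ∈ J, ∃ b ∈ J, c = a * b - b * a}) ?_ ?_ ?_ ?_ hmem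
    · rintro y ⟨a, ha, b, hb, rfl⟩
      apply AddSubgroup.subset_closure
      refine ⟨v * φ a, ⟨k, a, ha, ?_⟩, φ b, ⟨0, b, hb, by simp⟩, ?_⟩
      · rw [← mul_assoc, hNv, one_mul]
      · rw [map_sub, map_mul, map_mul, mul_sub, mul_assoc, ← mul_assoc (φ b) v (φ a),
          ← (hv (φ b)).eq, mul_assoc]
    · rw [map_zero, mul_zero]
      exact AddSubgroup.zero_mem _
    · intro y z _ _ hy hz
      rw [map_add, mul_add]
      exact AddSubgroup.add_mem _ hy hz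
    · intro y _ hy
      rw [map_neg, mul_neg]
      exact AddSubgroup.neg_mem _ hy

end Run7.h305.LV
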